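import Pool.Agent.H98.EX.WTargets
import Pool.Agent.H64.SLN.CMT
import Pool.Agent.H98.SLN.INR

/-!
# The increments are independent with the law `rl` (row YSM)
-/

set_option autoImplicit false

open MeasureTheory ProbabilityTheory Filter Topology
open scoped ENNReal
open Pool.Agent.H95 Pool.Agent.H95.Cop
open Pool.Agent.H55.CG (Mo)
open Pool.Agent.H98.EX

namespace Pool.Agent.H75.EX

theorem meas_H (a b : ℕ) : Measurable (fun x : ℕ → ℝ => H x a b) := by
  unfold H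
  exact Finset.measurable_sum _ (fun i _ => measurable_pi_apply i)

theorem meas_yk (k : ℕ) (ϑ : ℝ) (i : ℕ) : Measurable (fun x : ℕ → ℝ => yk k ϑ x i) := by
  unfold yk
  exact ((meas_H _ _).div_const 2).add_const _

theorem meas_yk' (k : ℕ) (ϑ : ℝ) : Measurable (yk k ϑ) :=
  measurable_pi_lambda _ (fun i => meas_yk k ϑ i)

theorem H_shift (x : ℕ → ℝ) (k a b : ℕ) : H (shift k x) a b = H x (a + k) (b + k) := by
  unfold H
  rw [← Finset.sum_Ico_add' (fun i => x i) a b k]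
  rfl

theorem yk_succ (k : ℕ) (ϑ : ℝ) (x : ℕ → ℝ) (i : ℕ) :
    yk k ϑ x (i + 1) = yk k ϑ (shift k x) i := by
  unfold yk
  rw [H_shift]
  congr 3
  · ring
  · ring

theorem yk_dep (k : ℕ) (ϑ : ℝ) (x x' : ℕ → ℝ) (h : ∀ i < k, x i = x' i) :
    yk k ϑ x 0 = yk k ϑ x' 0 := by
  unfold yk H
  congr 2
  apply Finset.sum_congr rfl
  intro i hi
  rw [Finset.mem_Ico] at hi
  apply h
  omega

theorem rl_prob (ν : Measure ℝ) [IsProbabilityMeasure ν] (k : ℕ) (ϑ : ℝ) :
    IsProbabilityMeasure (rl ν k ϑ) := by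
  unfold rl
  exact Measure.isProbabilityMeasure_map (meas_yk k ϑ 0).aemeasurable

theorem cyl (ν : Measure ℝ) [IsProbabilityMeasure ν] (k : ℕ) (ϑ : ℝ) (n : ℕ) :
    ∀ u : ℕ → Set ℝ, (∀ i, MeasurableSet (u i)) →
      (iid ν) {x | ∀ i < n, yk k ϑ x i ∈ u i} = ∏ i ∈ Finset.range n, rl ν k ϑ (u i) := by
  induction n with
  | zero =>
    intro u _
    simp
  | succ n ih =>
    intro u hu
    have hB : MeasurableSet {x : ℕ → ℝ | ∀ i < n, yk k ϑ x i ∈ u (i + 1)} := by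
      have : {x : ℕ → ℝ | ∀ i < n, yk k ϑ x i ∈ u (i + 1)} =
          ⋂ i ∈ Finset.range n, {x : ℕ → ℝ | yk k ϑ x i ∈ u (i + 1)} := by
        ext x
        simp
      rw [this]
      exact Finset.measurableSet_biInter _ (fun i _ => meas_yk k ϑ i (hu (i + 1)))
    have hA : MeasurableSet {x : ℕ → ℝ | yk k ϑ x 0 ∈ u 0} := meas_yk k ϑ 0 (hu 0)
    have hAd : DepLt k (fun x : ℕ → ℝ => x ∈ {x : ℕ → ℝ | yk k ϑ x 0 ∈ u 0}) := by
      intro x x' h
      show (yk k ϑ x 0 ∈ u 0) = (yk k ϑ x' 0 ∈ u 0)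
      rw [yk_dep k ϑ x x' h]
    have hsplit : {x : ℕ → ℝ | ∀ i < n + 1, yk k ϑ x i ∈ u i} =
        {x : ℕ → ℝ | yk k ϑ x 0 ∈ u 0} ∩
          shift k ⁻¹' {x : ℕ → ℝ | ∀ i < n, yk k ϑ x i ∈ u (i + 1)} := by
      ext x
      constructor
      · intro h
        refine ⟨h 0 (Nat.succ_pos n), fun i hi => ?_⟩
        rw [← yk_succ]
        exact h (i + 1) (by omega)
      · rintro ⟨h0, h1⟩ i hi
        rcases i with _ | i
        · exact h0
        · rw [yk_succ]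
          exact h1 i (by omega)
    rw [hsplit, measure_inter_shift ν hAd hA hB, ih (fun i => u (i + 1)) (fun i => hu (i + 1)),
      Finset.prod_range_succ']
    rw [mul_comm]
    congr 1
    unfold rl
    rw [Measure.map_apply (meas_yk k ϑ 0) (hu 0)]
    rfl

theorem yk_mp (ν : Measure ℝ) [IsProbabilityMeasure ν] (k : ℕ) (ϑ : ℝ) :
    MeasurePreserving (yk k ϑ) (iid ν) (iid (rl ν k ϑ)) := by
  have hp := rl_prob ν k ϑ
  refine ⟨meas_yk' k ϑ, ?_⟩
  apply Measure.eq_infinitePi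
  intro s u hu
  rw [Measure.map_apply (meas_yk' k ϑ) (MeasurableSet.pi s.countable_toSet (fun i _ => hu i))]
  classical
  obtain ⟨n, hn⟩ : ∃ n, ∀ i ∈ s, i < n := by
    refine ⟨s.sup id + 1, fun i hi => ?_⟩
    have := Finset.le_sup (f := id) hi
    simp only [id] at this
    omega
  have h1 : yk k ϑ ⁻¹' (Set.pi s u) =
      {x | ∀ i < n, yk k ϑ x i ∈ (fun i => if i ∈ s then u i else Set.univ) i} := by
    ext x
    simp only [Set.mem_preimage, Set.mem_pi, Finset.mem_coe]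
    constructor
    · intro h i _
      by_cases his : i ∈ s
      · simp only [his, if_true]
        exact h i his
      · simp only [his, if_false]
        exact Set.mem_univ _
    · intro h i hi
      have := h i (hn i hi)
      simpa only [hi, if_true] using this
  rw [h1, cyl ν k ϑ n _ (fun i => by
    show MeasurableSet (if i ∈ s then u i else Set.univ)
    split_ifs
    · exact hu i
    · exact MeasurableSet.univ)]
  symm
  have hs : s ⊆ Finset.range n := fun i hi => Finset.mem_range.2 (hn i hi)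
  rw [← Finset.prod_subset hs (f := fun i => rl ν k ϑ (if i ∈ s then u i else Set.univ))]
  · apply Finset.prod_congr rfl
    intro i hi
    simp only [hi, if_true]
  · intro i _ hi
    simp only [hi, if_false]
    exact measure_univ

theorem exp_yk (k : ℕ) (ϑ u : ℝ) (x : ℕ → ℝ) :
    Real.exp (u * yk k ϑ x 0) = Real.exp (u * ϑ / 2) * Real.exp (u / 2 * H x 0 k) := by
  rw [← Real.exp_add]
  congr 1
  unfold yk
  rw [zero_mul, zero_add, one_mul]
  ring

theorem lint_H (ν : Measure ℝ) [IsProbabilityMeasure ν]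
    (hint : ∀ t : ℝ, Integrable (fun z => Real.exp (t * z)) ν) (k : ℕ) (u : ℝ) :
    ∫⁻ x : ℕ → ℝ, ENNReal.ofReal (Real.exp (u * H x 0 k)) ∂(iid ν) =
      ENNReal.ofReal (Mo ν u ^ k) :=
  (Pool.Agent.H98.SLN.pf_EXM ν hint 0 k le_rfl).2 u

theorem int_H (ν : Measure ℝ) [IsProbabilityMeasure ν]
    (hint : ∀ t : ℝ, Integrable (fun z => Real.exp (t * z)) ν) (k : ℕ) (u : ℝ) :
    Integrable (fun x : ℕ → ℝ => Real.exp (u * H x 0 k)) (iid ν) := by
  have hm : Measurable (fun x : ℕ → ℝ => Real.exp (u * H x 0 k)) :=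
    Real.measurable_exp.comp ((meas_H 0 k).const_mul u)
  refine ⟨hm.aestronglyMeasurable, ?_⟩
  rw [hasFiniteIntegral_iff_ofReal (Eventually.of_forall (fun x => (Real.exp_pos _).le)),
    lint_H ν hint k u]
  exact ENNReal.ofReal_lt_top

theorem mo_pos (ν : Measure ℝ) [IsProbabilityMeasure ν]
    (hint : ∀ t : ℝ, Integrable (fun z => Real.exp (t * z)) ν) (u : ℝ) : 0 < Mo ν u :=
  integral_exp_pos (hint u)

theorem int_eq (ν : Measure ℝ) [IsProbabilityMeasure ν]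
    (hint : ∀ t : ℝ, Integrable (fun z => Real.exp (t * z)) ν) (k : ℕ) (u : ℝ) :
    ∫ x : ℕ → ℝ, Real.exp (u * H x 0 k) ∂(iid ν) = Mo ν u ^ k := by
  rw [integral_eq_lintegral_of_nonneg_ae (Eventually.of_forall (fun x => (Real.exp_pos _).le))
    (int_H ν hint k u).1, lint_H ν hint k u, ENNReal.toReal_ofReal]
  exact pow_nonneg (mo_pos ν hint u).le k

theorem mo_rl (ν : Measure ℝ) [IsProbabilityMeasure ν]
    (hint : ∀ t : ℝ, Integrable (fun z => Real.exp (t * z)) ν) (k : ℕ) (ϑ u : ℝ) :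
    Mo (rl ν k ϑ) u = Real.exp (u * ϑ / 2) * Mo ν (u / 2) ^ k := by
  have h1 : Mo (rl ν k ϑ) u = ∫ x, Real.exp (u * yk k ϑ x 0) ∂(iid ν) := by
    show ∫ z, Real.exp (u * z) ∂(rl ν k ϑ) = _
    unfold rl
    rw [integral_map (meas_yk k ϑ 0).aemeasurable]
    exact (by fun_prop : Measurable fun z : ℝ => Real.exp (u * z)).aestronglyMeasurable
  rw [h1]
  simp_rw [exp_yk]
  rw [integral_const_mul, int_eq ν hint]

theorem int_rl (ν : Measure ℝ) [IsProbabilityMeasure ν]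
    (hint : ∀ t : ℝ, Integrable (fun z => Real.exp (t * z)) ν) (k : ℕ) (ϑ u : ℝ) :
    Integrable (fun z => Real.exp (u * z)) (rl ν k ϑ) := by
  unfold rl
  rw [integrable_map_measure
    (by fun_prop : Measurable fun z : ℝ => Real.exp (u * z)).aestronglyMeasurable
    (meas_yk k ϑ 0).aemeasurable]
  have h2 : ((fun z => Real.exp (u * z)) ∘ fun x => yk k ϑ x 0) =
      fun x => Real.exp (u * ϑ / 2) * Real.exp (u / 2 * H x 0 k) := by
    funext x
    exact exp_yk k ϑ u x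
  rw [h2]
  exact (int_H ν hint k (u / 2)).const_mul _

theorem tilt_rl (ν : Measure ℝ) [IsProbabilityMeasure ν]
    (hint : ∀ t : ℝ, Integrable (fun z => Real.exp (t * z)) ν) (k : ℕ) (ϑ u : ℝ) :
    (rl ν k ϑ).tilted (fun t => u * t) = rl (ν.tilted fun t => u / 2 * t) k ϑ := by
  obtain ⟨hpt, -, hcm⟩ := Pool.Agent.H64.SLN.pf_CMT ν hint (u / 2)
  ext A hA
  have hAm : MeasurableSet {x : ℕ → ℝ | yk k ϑ x 0 ∈ A} := meas_yk k ϑ 0 hA
  have hM : 0 < Mo ν (u / 2) ^ k := pow_pos (mo_pos ν hint _) k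
  have hE : 0 < Real.exp (u * ϑ / 2) := Real.exp_pos _
  have hZ : ∫ x, Real.exp (u * x) ∂(rl ν k ϑ) = Real.exp (u * ϑ / 2) * Mo ν (u / 2) ^ k :=
    mo_rl ν hint k ϑ u
  have hR : rl (ν.tilted fun t => u / 2 * t) k ϑ A =
      (iid (ν.tilted fun t => u / 2 * t)) {x : ℕ → ℝ | yk k ϑ x 0 ∈ A} := by
    unfold rl
    rw [Measure.map_apply (meas_yk k ϑ 0) hA]
    rfl
  rw [tilted_apply' _ _ hA, hR, hZ]
  have h1 : ∫⁻ a in A, ENNReal.ofReal (Real.exp (u * a) /
      (Real.exp (u * ϑ / 2) * Mo ν (u / 2) ^ k)) ∂(rl ν k ϑ) =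
      ∫⁻ x in {x : ℕ → ℝ | yk k ϑ x 0 ∈ A}, ENNReal.ofReal (Real.exp (u * yk k ϑ x 0) /
        (Real.exp (u * ϑ / 2) * Mo ν (u / 2) ^ k)) ∂(iid ν) := by
    unfold rl
    rw [setLIntegral_map hA (by fun_prop) (meas_yk k ϑ 0)]
    rfl
  rw [h1, ← lintegral_indicator hAm]
  have h2 : ∀ x : ℕ → ℝ, ({x : ℕ → ℝ | yk k ϑ x 0 ∈ A}.indicator (fun x =>
      ENNReal.ofReal (Real.exp (u * yk k ϑ x 0) /
        (Real.exp (u * ϑ / 2) * Mo ν (u / 2) ^ k)))) x =
      ENNReal.ofReal (Mo ν (u / 2) ^ k)⁻¹ * (ENNReal.ofReal (Real.exp (u / 2 * H x 0 k)) *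
        ({x : ℕ → ℝ | yk k ϑ x 0 ∈ A}.indicator (fun _ => (1 : ℝ≥0∞))) x) := by
    intro x
    by_cases hx : x ∈ {x : ℕ → ℝ | yk k ϑ x 0 ∈ A}
    · rw [Set.indicator_of_mem hx, Set.indicator_of_mem hx, mul_one,
        ← ENNReal.ofReal_mul (inv_nonneg.2 hM.le)]
      congr 1
      rw [exp_yk]
      field_simp
    · rw [Set.indicator_of_notMem hx, Set.indicator_of_notMem hx, mul_zero, mul_zero]
  rw [lintegral_congr h2, lintegral_const_mul, hcm k _ (measurable_const.indicator hAm),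
    lintegral_indicator hAm, setLIntegral_one, ← mul_assoc,
    ← ENNReal.ofReal_mul (inv_nonneg.2 hM.le), inv_mul_cancel₀ hM.ne', ENNReal.ofReal_one, one_mul]
  · intro x x' h
    have h3 := yk_dep k ϑ x x' h
    by_cases hx : x ∈ {x : ℕ → ℝ | yk k ϑ x 0 ∈ A}
    · have hx' : x' ∈ {x : ℕ → ℝ | yk k ϑ x 0 ∈ A} := by
        show yk k ϑ x' 0 ∈ A
        rw [← h3]
        exact hx
      rw [Set.indicator_of_mem hx, Set.indicator_of_mem hx']
    · have hx' : x' ∉ {x : ℕ → ℝ | yk k ϑ x 0 ∈ A} := by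
        intro h4
        apply hx
        show yk k ϑ x 0 ∈ A
        rw [h3]
        exact h4
      rw [Set.indicator_of_notMem hx, Set.indicator_of_notMem hx']
  · exact ((Real.measurable_exp.comp ((meas_H 0 k).const_mul _)).ennreal_ofReal).mul
      (measurable_const.indicator hAm)

theorem pf_YSM : T_YSM := by
  intro ν _ hint k ϑ _
  exact ⟨yk_mp ν k ϑ, rl_prob ν k ϑ, int_rl ν hint k ϑ, mo_rl ν hint k ϑ, tilt_rl ν hint k ϑ⟩

end Pool.Agent.H75.EX
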