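import Pool.Agent.H98.EX.KTargets
import Pool.Agent.H5.CE.SR1

/-!
# The new stretches over several boxes (row R1X)
-/

set_option autoImplicit false

open MeasureTheory ProbabilityTheory Filter Topology
open scoped ENNReal
open Pool.Agent.H95 Pool.Agent.H95.Cop Pool.Agent.H96.Cop
open Pool.Agent.H99.CE (BX w1 cq tb Gf Hf Kd ld mx ab eb TT FL EE lg Reg)
open Pool.Agent.H98.EX
open Pool.Agent.H5.CE (sum_ld_le sum_mul_ld_le)

namespace Pool.Agent.H75.EX

theorem pf_R1X (hPFM : Pool.Agent.H99.CE.T_PFM) (hLNK : Pool.Agent.H99.CE.T_LNK)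
    (hSTR : Pool.Agent.H99.CE.T_STR) (hNAX : T_NAX) : T_R1X := by
  clear hPFM
  intro K ν _ α s e c δ h P ε X M n0 k B hP hc hReg hk hkB hnB hQT hQR
  have hB : 1 ≤ B := hk.trans hkB
  obtain ⟨hna, ht, hnaM, -, -, hts, -, hnal⟩ :=
    hNAX e α s c δ k B M hP.α0 hP.s0 hP.e0 hc hP.δ0 hk hkB hP.M1
  have hα0 : 0 < α := by linarith [hP.α0]
  have hsg := hP.s0
  have he0 := hP.e0
  unfold QTe at hQT
  unfold QRe at hQR ⊢
  have ht0 := hP.t0
  have ht1 := hP.t1
  have hc1 := hP.c1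
  set θ := te α s with hθ
  set t := tb α c δ B with htt
  set A := ue e α s c δ k B with hA
  have hθ0 : 0 < θ := by linarith
  have hθ1 : θ ≤ 1 := by linarith
  have hP0 : 0 ≤ P := by linarith [hP.P1]
  have hM0 : (1 : ℝ) ≤ M := by exact_mod_cast hP.M1
  have hA0 : ENNReal.ofReal A ≠ 0 := by
    rw [Ne, ENNReal.ofReal_eq_zero, not_le]
    exact hna
  rw [ENNReal.div_le_iff hA0 ENNReal.ofReal_ne_top, ← ENNReal.ofReal_mul hP0] at hQT hQR
  have htθ : 0 < t ^ (-θ) := Real.rpow_pos_of_pos ht _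
  have hAt : A * t ^ (-θ) ≤ e := by
    calc A * t ^ (-θ) ≤ e * t ^ θ * t ^ (-θ) := mul_le_mul_of_nonneg_right hnal htθ.le
      _ = e := by rw [mul_assoc, ← Real.rpow_add ht, add_neg_cancel, Real.rpow_zero, mul_one]
  have hlog : 0 ≤ Real.log M := Real.log_nonneg hM0
  have hsmall : ENNReal.ofReal (P * A) * ENNReal.ofReal (t ^ (-θ) * (2 + Real.log M)) ≤ 4⁻¹ := by
    rw [← ENNReal.ofReal_mul (by positivity)]
    have h1 : P * A * (t ^ (-θ) * (2 + Real.log M)) ≤ 1 / 4 := by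
      have h2 : P * A * (t ^ (-θ) * (2 + Real.log M)) =
          P * ((A * t ^ (-θ)) * (2 + Real.log M)) := by ring
      have h3 : (A * t ^ (-θ)) * (2 + Real.log M) ≤ e * (2 + Real.log M) :=
        mul_le_mul_of_nonneg_right hAt (by linarith)
      have h4 : e * (2 + Real.log M) ≤ (1 + ε) * h := by
        refine le_trans ?_ hc1
        apply mul_le_mul_of_nonneg_left _ he0.le
        have h5 : 0 ≤ (72 * e * P) ^ θ * (1 + 1 / s) := by positivity
        linarith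
      rw [h2]
      have h6 : P * ((A * t ^ (-θ)) * (2 + Real.log M)) ≤ P * ((1 + ε) * h) :=
        mul_le_mul_of_nonneg_left (h3.trans h4) hP0
      have h7 := hP.c2
      have h8 : 0 ≤ P * ((1 + ε) * h) := by
        have := hP.ε0
        have := hP.h0
        positivity
      nlinarith
    calc ENNReal.ofReal (P * A * (t ^ (-θ) * (2 + Real.log M))) ≤ ENNReal.ofReal (1 / 4) :=
        ENNReal.ofReal_le_ofReal h1
      _ = 4⁻¹ := by
        rw [one_div, ENNReal.ofReal_inv_of_pos (by norm_num)]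
        norm_num
  obtain ⟨-, hmain⟩ := hSTR K ν B M (ld α t δ M) θ hB hP.M1 hθ0 hθ1
    (hLNK K α c δ n0 B M hα0 hc hP.δ0 hReg hB hnB) (ENNReal.ofReal (P * A))
    (ENNReal.ofReal (t ^ (-θ) * (2 + Real.log M))) (ENNReal.ofReal (P * A))
    (ENNReal.ofReal (2 * M * t ^ (-θ)))
    (fun n => (ENNReal.sum_le_tsum _).trans hQT)
    (fun n => sum_ld_le α t δ θ s M n hP.M1 hα0 ht hP.δ0 hθ0 hsg hts) hsmall
    (fun n => (ENNReal.sum_le_tsum _).trans hQR)
    (fun n => sum_mul_ld_le α t δ θ s M n hα0 ht hP.δ0 hθ0 hsg hts)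
  have htsum : ∑' b : ℕ, (b : ℝ≥0∞) * ∫⁻ x, BX (w1 K (M * B)) (M * B) b x ^ θ ∂(iid ν) ≤
      2 * (ENNReal.ofReal (P * A) + ENNReal.ofReal (P * A) ^ 2 *
        ENNReal.ofReal (2 * M * t ^ (-θ))) :=
    ENNReal.tsum_le_of_sum_range_le hmain
  rw [hnaM]
  have hMA : ENNReal.ofReal (M * A) ≠ 0 := by
    rw [Ne, ENNReal.ofReal_eq_zero, not_le]
    positivity
  rw [ENNReal.div_le_iff hMA ENNReal.ofReal_ne_top]
  refine htsum.trans ?_
  rw [← ENNReal.ofReal_pow (by positivity), ← ENNReal.ofReal_mul (by positivity),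
    ← ENNReal.ofReal_add (by positivity) (by positivity), ← ENNReal.ofReal_mul hP.ε0.le,
    show (2 : ℝ≥0∞) = ENNReal.ofReal 2 by norm_num, ← ENNReal.ofReal_mul (by norm_num)]
  apply ENNReal.ofReal_le_ofReal
  have h5 := hP.c5
  have h6 : (2 * P / M + 4 * e * P ^ 2) * (M * A) ≤ ε * (M * A) :=
    mul_le_mul_of_nonneg_right h5 (by positivity)
  have h7 : (2 * P / M + 4 * e * P ^ 2) * (M * A) =
      2 * P * A + 4 * e * P ^ 2 * (M * A) := by
    field_simp
  have h8 : 4 * (A * t ^ (-θ)) * P ^ 2 * (M * A) ≤ 4 * e * P ^ 2 * (M * A) := by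
    have : 0 ≤ P ^ 2 * (M * A) := by positivity
    nlinarith
  calc 2 * (P * A + (P * A) ^ 2 * (2 * M * t ^ (-θ))) =
      2 * P * A + 4 * (A * t ^ (-θ)) * P ^ 2 * (M * A) := by ring
    _ ≤ ε * (M * A) := by linarith

end Pool.Agent.H75.EX
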